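import Pool.Agent.H174.GM.Stmts

/-!
# Odd antisymmetric polynomials (subtask DIV of project GM of helper174)
-/

set_option autoImplicit false

open Finset MvPolynomial

namespace Pool.Agent.H390.GM174

open Pool.Agent.H174.GM

variable {k : ℕ}

/-- polynomials in `k` variables -/
abbrev MP (k : ℕ) : Type := MvPolynomial (Fin k) ℚ

/-! ### the substitution `X_i ↦ u(X_i)` -/

/-- the substitution `X_i ↦ u(X_i)` -/
noncomputable def Us (k : ℕ) : MP k →ₐ[ℚ] MP k := aeval (fun i => uu (X i : MP k))

theorem Us_X (i : Fin k) : Us k (X i) = uu (X i) := by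
  unfold Us; rw [aeval_X]

theorem transc : Transcendental ℚ (Polynomial.X * (1 - Polynomial.X) : Polynomial ℚ) := by
  rw [transcendental_iff]
  intro p hp
  have h1 : p.comp (Polynomial.X * (1 - Polynomial.X)) = 0 := by
    rw [Polynomial.comp_eq_aeval]; exact hp
  rw [Polynomial.comp_eq_zero_iff] at h1
  rcases h1 with h1 | ⟨-, h2⟩
  · exact h1
  · exfalso
    have h3 := congrArg (Polynomial.eval 1) h2
    have h4 := congrArg (Polynomial.eval 2) h2
    simp only [Polynomial.eval_mul, Polynomial.eval_X, Polynomial.eval_sub, Polynomial.eval_one,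
      Polynomial.eval_C] at h3 h4
    rw [← h3] at h4
    norm_num at h4

theorem Us_inj : Function.Injective (Us k) := by
  have h := MvPolynomial.algebraicIndependent_polynomial_aeval_X (ι := Fin k) (R := ℚ)
    (fun _ => (Polynomial.X * (1 - Polynomial.X) : Polynomial ℚ)) (fun i => transc)
  have e : (fun i : Fin k => Polynomial.aeval (X i : MP k)
      (Polynomial.X * (1 - Polynomial.X) : Polynomial ℚ)) = fun i => uu (X i : MP k) := by
    funext i
    simp [uu]
  rw [e] at h
  exact h

theorem Us_ne {g : MP k} (hg : g ≠ 0) : Us k g ≠ 0 := by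
  intro h
  apply hg
  apply Us_inj
  rw [h, map_zero]

theorem rename_Us (σ : Equiv.Perm (Fin k)) (g : MP k) :
    rename σ (Us k g) = Us k (rename σ g) := by
  have : ((rename σ : MP k →ₐ[ℚ] MP k).comp (Us k)) = (Us k).comp (rename σ) := by
    apply MvPolynomial.algHom_ext
    intro i
    rw [AlgHom.comp_apply, AlgHom.comp_apply, Us_X, rename_X, Us_X]
    simp [uu]
  exact congrArg (fun φ : MP k →ₐ[ℚ] MP k => φ g) this

/-! ### the decomposition -/

/-- the flip of the variable `j` -/
noncomputable def Fl (j : Fin k) : MP k →ₐ[ℚ] MP k := aeval (fun i => if i = j then 1 - X i else X i)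

theorem Fl_Us (j : Fin k) (g : MP k) : Fl j (Us k g) = Us k g := by
  have : (Fl j).comp (Us k) = Us k := by
    apply MvPolynomial.algHom_ext
    intro i
    rw [AlgHom.comp_apply, Us_X]
    unfold uu Fl
    simp only [map_mul, map_sub, map_one, aeval_X]
    split_ifs <;> ring
  exact congrArg (fun φ : MP k →ₐ[ℚ] MP k => φ g) this

/-- the basis elements -/
noncomputable def bas (T : Finset (Fin k)) : MP k := ∏ i ∈ T, (1 - 2 * X i)

theorem Fl_bas (j : Fin k) (T : Finset (Fin k)) :
    Fl j (bas T) = (if j ∈ T then -1 else 1) * bas T := by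
  have h2 : Fl j (2 : MP k) = 2 := map_ofNat _ 2
  have hf : ∀ i, Fl j (1 - 2 * X i : MP k) = (if i = j then -1 else 1) * (1 - 2 * X i) := by
    intro i
    rw [map_sub, map_one, map_mul, h2]
    unfold Fl
    rw [aeval_X]
    split_ifs <;> ring
  unfold bas
  rw [map_prod]
  simp only [hf]
  rw [prod_mul_distrib]
  congr 1
  by_cases hj : j ∈ T
  · rw [if_pos hj, Finset.prod_ite_eq' T j (fun _ => (-1 : MP k)), if_pos hj]
  · rw [if_neg hj, Finset.prod_ite_eq' T j (fun _ => (-1 : MP k)), if_neg hj]

/-- `f` is a combination of the basis elements of the sets containing `S` -/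
def Dec (S : Finset (Fin k)) (f : MP k) : Prop :=
  ∃ g : Finset (Fin k) → MP k, (∀ T, ¬ S ⊆ T → g T = 0) ∧ f = ∑ T, bas T * Us k (g T)

theorem Dec.add {S : Finset (Fin k)} {f f' : MP k} (h : Dec S f) (h' : Dec S f') : Dec S (f + f') := by
  obtain ⟨g, h1, rfl⟩ := h
  obtain ⟨g', h1', rfl⟩ := h'
  refine ⟨fun T => g T + g' T, fun T hT => by
    change g T + g' T = 0
    rw [h1 T hT, h1' T hT, add_zero], ?_⟩
  rw [← sum_add_distrib]
  refine sum_congr rfl fun T _ => ?_
  rw [map_add, mul_add]

theorem Dec.smul {S : Finset (Fin k)} {f : MP k} (c : ℚ) (h : Dec S f) : Dec S (C c * f) := by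
  obtain ⟨g, h1, rfl⟩ := h
  refine ⟨fun T => C c * g T, fun T hT => by
    change C c * g T = 0
    rw [h1 T hT, mul_zero], ?_⟩
  rw [mul_sum]
  refine sum_congr rfl fun T _ => ?_
  have : Us k (C c) = C c := by
    unfold Us; rw [aeval_C]; rfl
  rw [map_mul, this]; ring

theorem Dec.const (c : ℚ) : Dec (∅ : Finset (Fin k)) (C c) := by
  refine ⟨fun T => if T = ∅ then C c else 0, fun T hT => absurd (empty_subset T) hT, ?_⟩
  rw [sum_eq_single ∅]
  · have : Us k (C c) = C c := by
      unfold Us; rw [aeval_C]; rfl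
    simp only [if_true, this]; simp [bas]
  · intro T _ hT
    simp only [if_neg hT, map_zero, mul_zero]
  · intro h; exact absurd (mem_univ _) h

/-- the symmetric difference with a point -/
def tg (j : Fin k) (T : Finset (Fin k)) : Finset (Fin k) := if j ∈ T then T.erase j else insert j T

theorem tg_tg (j : Fin k) (T : Finset (Fin k)) : tg j (tg j T) = T := by
  unfold tg
  by_cases hj : j ∈ T
  · simp only [hj, if_true, mem_erase, ne_eq, not_true_eq_false, false_and, if_false,
      insert_erase hj]
  · simp only [hj, if_false, mem_insert, true_or, if_true, erase_insert hj]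

theorem bas_tg (j : Fin k) (T : Finset (Fin k)) :
    (1 - 2 * X j) * bas T = (if j ∈ T then (1 - 2 * X j) ^ 2 else 1) * bas (tg j T) := by
  unfold bas tg
  by_cases hj : j ∈ T
  · rw [if_pos hj, if_pos hj, ← mul_prod_erase T _ hj]
    ring
  · rw [if_neg hj, if_neg hj, prod_insert hj]
    ring

theorem Dec.mulB {f : MP k} (j : Fin k) (h : Dec ∅ f) : Dec ∅ ((1 - 2 * X j) * f) := by
  obtain ⟨g, -, rfl⟩ := h
  refine ⟨fun T => (if j ∈ T then 1 else 1 - 4 * X j) * g (tg j T),
    fun T hT => absurd (empty_subset T) hT, ?_⟩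
  rw [mul_sum]
  have e : ∀ T : Finset (Fin k), (1 - 2 * X j) * (bas T * Us k (g T)) =
      (fun T => bas T * Us k ((if j ∈ T then 1 else 1 - 4 * X j) * g (tg j T))) (tg j T) := by
    intro T
    have h4 : Us k (4 : MP k) = 4 := map_ofNat _ 4
    simp only
    rw [← mul_assoc, bas_tg, tg_tg, map_mul]
    unfold tg
    by_cases hj : j ∈ T
    · simp only [hj, if_true, mem_erase, ne_eq, not_true_eq_false, false_and, if_false, map_sub,
        map_one, map_mul, h4, Us_X]
      unfold uu
      ring
    · simp only [hj, if_false, mem_insert, true_or, if_true, map_one]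
      ring
  rw [sum_congr rfl fun T _ => e T]
  exact Equiv.sum_comp ⟨tg j, tg j, tg_tg j, tg_tg j⟩
    (fun T => bas T * Us k ((if j ∈ T then 1 else 1 - 4 * X j) * g (tg j T)))

theorem Dec.all (f : MP k) : Dec ∅ f := by
  induction f using MvPolynomial.induction_on with
  | C c => exact Dec.const c
  | add p q hp hq => exact hp.add hq
  | mul_X p j hp =>
    have h1 := (hp.smul (1 / 2)).add ((hp.mulB j).smul (-(1 / 2)))
    have e : p * X j = C (1 / 2) * p + C (-(1 / 2)) * ((1 - 2 * X j) * p) := by
      have h2 : (C (1 / 2) : MP k) * 2 = 1 := by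
        rw [← map_ofNat (C : ℚ →+* MP k) 2, ← C_mul]; norm_num
      rw [C_neg]
      linear_combination (-(X j * p)) * h2
    rw [e]
    exact h1

theorem Dec.odd {f : MP k} (S : Finset (Fin k)) (hf : ∀ j ∈ S, Fl j f = -f) : Dec S f := by
  induction S using Finset.induction_on with
  | empty => exact Dec.all f
  | insert j S hj ih =>
    obtain ⟨g, h1, h2⟩ := ih (fun i hi => hf i (mem_insert_of_mem hi))
    refine ⟨fun T => if j ∈ T then g T else 0, ?_, ?_⟩
    · intro T hT
      by_cases hjT : j ∈ T
      · simp only [if_pos hjT]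
        exact h1 T (fun h => hT (insert_subset hjT h))
      · simp only [if_neg hjT]
    · have h3 := hf j (mem_insert_self j S)
      have h4 : Fl j f = ∑ T, (if j ∈ T then -1 else 1) * (bas T * Us k (g T)) := by
        rw [h2, map_sum]
        refine sum_congr rfl fun T _ => ?_
        rw [map_mul, Fl_bas, Fl_Us]; ring
      have h5 : (2 : MP k) * f = 2 * ∑ T, bas T * Us k (if j ∈ T then g T else 0) := by
        have h6 : (2 : MP k) * f = f - Fl j f := by rw [h3]; ring
        rw [h6, h4]
        nth_rewrite 1 [h2]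
        rw [← sum_sub_distrib, mul_sum]
        refine sum_congr rfl fun T _ => ?_
        by_cases hjT : j ∈ T
        · rw [if_pos hjT, if_pos hjT]; ring
        · rw [if_neg hjT, if_neg hjT, map_zero]; ring
      exact mul_left_cancel₀ two_ne_zero h5

theorem odd_eq {f : MP k} (hf : ∀ j, Fl j f = -f) : ∃ g : MP k, f = bas univ * Us k g := by
  obtain ⟨g, h1, h2⟩ := Dec.odd univ (fun j _ => hf j)
  refine ⟨g univ, ?_⟩
  rw [h2, sum_eq_single univ]
  · intro T _ hT
    rw [h1 T (fun h => hT (univ_subset_iff.1 h)), map_zero, mul_zero]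
  · intro h; exact absurd (mem_univ _) h

/-! ### antisymmetric polynomials -/

/-- the substitution `X_p ↦ X_q` -/
noncomputable def Id (p q : Fin k) : MP k →ₐ[ℚ] MP k := aeval (fun i => if i = p then X q else X i)

theorem dvd_iff (p q : Fin k) (g : MP k) : (X p - X q) ∣ g ↔ Id p q g = 0 := by
  constructor
  · rintro ⟨h, rfl⟩
    have : Id p q (X p - X q) = 0 := by
      unfold Id
      rw [map_sub, aeval_X, aeval_X, if_pos rfl]
      split_ifs <;> simp
    rw [map_mul, this, zero_mul]
  · intro h
    have key : (X p - X q) ∣ g - Id p q g := by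
      clear h
      induction g using MvPolynomial.induction_on with
      | C c =>
        have : Id p q (C c) = C c := by unfold Id; rw [aeval_C]; rfl
        rw [this, sub_self]; exact dvd_zero _
      | add a b ha hb =>
        have : a + b - Id p q (a + b) = (a - Id p q a) + (b - Id p q b) := by rw [map_add]; ring
        rw [this]
        exact dvd_add ha hb
      | mul_X a i ha =>
        have e1 : a * X i - Id p q (a * X i) =
            (a - Id p q a) * X i + Id p q a * (X i - Id p q (X i)) := by rw [map_mul]; ring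
        rw [e1]
        refine dvd_add (Dvd.dvd.mul_right ha _) (Dvd.dvd.mul_left ?_ _)
        unfold Id
        rw [aeval_X]
        by_cases hi : i = p
        · rw [if_pos hi, hi]
        · rw [if_neg hi, sub_self]; exact dvd_zero _
    rw [h, sub_zero] at key
    exact key

/-- evaluation at the indicator function of a set -/
theorem X_sub_ne {p q : Fin k} (hpq : p ≠ q) : (X p - X q : MP k) ≠ 0 := by
  intro h
  have := congrArg (MvPolynomial.eval (fun i => if i = p then (1 : ℚ) else 0)) h
  simp [Ne.symm hpq] at this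

theorem prime_sub {p q : Fin k} (hpq : p ≠ q) : Prime (X p - X q : MP k) := by
  refine ⟨X_sub_ne hpq, ?_, ?_⟩
  · intro hu
    have := hu.map (MvPolynomial.eval (fun _ => (0 : ℚ)))
    simp at this
  · intro a b hab
    rw [dvd_iff, map_mul] at hab
    rw [dvd_iff, dvd_iff]
    exact mul_eq_zero.1 hab

theorem not_dvd_sub {p q a b : Fin k} (hab : a ≠ b) (ha : a ≠ p) (ha' : a ≠ q) :
    ¬ (X p - X q : MP k) ∣ (X a - X b) := by
  rintro ⟨h, e⟩
  have := congrArg (MvPolynomial.eval (fun i => if i = a then (1 : ℚ) else 0)) e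
  simp [Ne.symm ha, Ne.symm ha', Ne.symm hab] at this

theorem not_dvd_sub' {p q a b : Fin k} (hab : a ≠ b) (hb : b ≠ p) (hb' : b ≠ q) :
    ¬ (X p - X q : MP k) ∣ (X a - X b) := by
  rintro ⟨h, e⟩
  have := congrArg (MvPolynomial.eval (fun i => if i = b then (1 : ℚ) else 0)) e
  simp [Ne.symm hb, Ne.symm hb', hab] at this

/-- the Vandermonde product of a set of pairs -/
noncomputable def Vd (S : Finset (Fin k × Fin k)) : MP k := ∏ p ∈ S, (X p.1 - X p.2)

theorem Vd_dvd {g : MP k} (hg : ∀ p q : Fin k, p ≠ q → (X p - X q : MP k) ∣ g)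
    (S : Finset (Fin k × Fin k)) (hS : S ⊆ pairs k) : Vd S ∣ g := by
  induction S using Finset.induction_on with
  | empty => unfold Vd; rw [prod_empty]; exact one_dvd g
  | insert a S ha ih =>
    have haS : a ∈ pairs k := hS (mem_insert_self a S)
    have hlt : a.1 < a.2 := by
      unfold pairs at haS
      exact (mem_filter.1 haS).2
    obtain ⟨h, rfl⟩ := ih (fun x hx => hS (mem_insert_of_mem hx))
    have hp := prime_sub hlt.ne
    rcases hp.dvd_or_dvd (hg a.1 a.2 hlt.ne) with h1 | h1
    · exfalso
      unfold Vd at h1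
      obtain ⟨b, hb, hdb⟩ := hp.exists_mem_finset_dvd h1
      have hbS : b ∈ pairs k := hS (mem_insert_of_mem hb)
      have hlt' : b.1 < b.2 := by
        unfold pairs at hbS
        exact (mem_filter.1 hbS).2
      have hne : b ≠ a := fun h => ha (h ▸ hb)
      by_cases c1 : b.1 = a.1
      · have c2 : b.2 ≠ a.2 := fun h => hne (Prod.ext c1 h)
        have c3 : b.2 ≠ a.1 := by
          intro h
          rw [h, c1] at hlt'
          exact lt_irrefl _ hlt'
        exact not_dvd_sub' hlt'.ne c3 c2 hdb
      · by_cases c2 : b.1 = a.2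
        · have c3 : b.2 ≠ a.2 := by
            intro h
            rw [h, c2] at hlt'
            exact lt_irrefl _ hlt'
          have c4 : b.2 ≠ a.1 := by
            intro h
            rw [h, c2] at hlt'
            exact lt_asymm hlt hlt'
          exact not_dvd_sub' hlt'.ne c4 c3 hdb
        · exact not_dvd_sub hlt'.ne c1 c2 hdb
    · unfold Vd
      rw [prod_insert ha, mul_comm]
      exact mul_dvd_mul_left _ h1

theorem Vd_sign (σ : Equiv.Perm (Fin k)) :
    rename σ (Vd (pairs k)) = (Equiv.Perm.sign σ : ℤ) • Vd (pairs k) := by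
  have key : ∀ v : Fin k → MP k, (∏ p ∈ pairs k, (v p.1 - v p.2)) =
      (-1) ^ (pairs k).card * (Matrix.vandermonde v).det := by
    intro v
    have e1 : ∏ p ∈ pairs k, (v p.1 - v p.2) = ∏ p ∈ pairs k, (-1) * (v p.2 - v p.1) :=
      prod_congr rfl fun p _ => by ring
    rw [e1, prod_mul_distrib, prod_const, Matrix.det_vandermonde]
    congr 1
    rw [prod_sigma']
    refine prod_bij' (fun p _ => (⟨p.1, p.2⟩ : Σ _ : Fin k, Fin k)) (fun p _ => (p.1, p.2)) ?_ ?_ ?_ ?_ ?_
    · intro p hp
      unfold pairs at hp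
      simpa using hp
    · intro p hp
      unfold pairs
      simpa using hp
    · intro p _; rfl
    · intro p _; rfl
    · intro p _; rfl
  have e2 : rename σ (Vd (pairs k)) = ∏ p ∈ pairs k, ((fun i => (X (σ i) : MP k)) p.1 -
      (fun i => (X (σ i) : MP k)) p.2) := by
    unfold Vd
    rw [map_prod]
    refine prod_congr rfl fun p _ => ?_
    rw [map_sub, rename_X, rename_X]
  have e3 : Matrix.vandermonde (fun i => (X (σ i) : MP k)) =
      (Matrix.vandermonde (fun i => (X i : MP k))).submatrix σ id := by
    ext i j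
    simp [Matrix.vandermonde_apply]
  rw [e2]
  refine (key (fun i => (X (σ i) : MP k))).trans ?_
  rw [e3, Matrix.det_permute]
  have e4 : Vd (pairs k) = (-1) ^ (pairs k).card * (Matrix.vandermonde (fun i => (X i : MP k))).det :=
    key _
  rw [e4, zsmul_eq_mul]
  ring

theorem Vd_ne (S : Finset (Fin k × Fin k)) (hS : S ⊆ pairs k) : Vd S ≠ 0 := by
  unfold Vd
  rw [prod_ne_zero_iff]
  intro p hp
  have := hS hp
  unfold pairs at this
  exact X_sub_ne (mem_filter.1 this).2.ne

/-- antisymmetric polynomials -/
theorem antisymm {g : MP k} (hg : ∀ σ : Equiv.Perm (Fin k), rename σ g = (Equiv.Perm.sign σ : ℤ) • g) :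
    ∃ β : MP k, β.IsSymmetric ∧ g = Vd (pairs k) * β := by
  have h1 : ∀ p q : Fin k, p ≠ q → (X p - X q : MP k) ∣ g := by
    intro p q hpq
    rw [dvd_iff]
    have e1 := hg (Equiv.swap p q)
    rw [Equiv.Perm.sign_swap hpq] at e1
    have e2 : Id p q (rename (Equiv.swap p q) g) = Id p q g := by
      have : (Id p q).comp (rename (Equiv.swap p q)) = Id p q := by
        apply MvPolynomial.algHom_ext
        intro i
        rw [AlgHom.comp_apply, rename_X]
        unfold Id
        rw [aeval_X, aeval_X]
        by_cases hp : i = p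
        · rw [hp, Equiv.swap_apply_left, if_pos rfl, if_neg (Ne.symm hpq)]
        · by_cases hq : i = q
          · rw [hq, Equiv.swap_apply_right, if_pos rfl, if_neg (Ne.symm hpq)]
          · rw [Equiv.swap_apply_of_ne_of_ne hp hq]
      exact congrArg (fun φ : MP k →ₐ[ℚ] MP k => φ g) this
    rw [e1] at e2
    simp only [Units.val_neg, Units.val_one, neg_smul, one_smul, map_neg] at e2
    have e3 : (2 : MP k) * Id p q g = 0 := by linear_combination -e2
    exact (mul_eq_zero.1 e3).resolve_left two_ne_zero
  obtain ⟨β, hβ⟩ := Vd_dvd h1 (pairs k) (subset_refl _)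
  refine ⟨β, ?_, hβ⟩
  intro σ
  have e1 := hg σ
  rw [hβ, map_mul, Vd_sign, smul_mul_assoc] at e1
  have e2 : Vd (pairs k) * rename σ β = Vd (pairs k) * β := by
    rcases Int.units_eq_one_or (Equiv.Perm.sign σ) with h | h
    · rw [h] at e1; simpa using e1
    · rw [h] at e1; simpa using e1
  exact mul_left_cancel₀ (Vd_ne _ (subset_refl _)) e2

/-! ### degrees -/

theorem degreeOf_swap (i j : Fin k) (g : MP k) :
    degreeOf i g = degreeOf j (rename (Equiv.swap i j) g) := by
  have := degreeOf_rename_of_injective (p := g) (f := Equiv.swap i j) (Equiv.injective _) i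
  rw [Equiv.swap_apply_left] at this
  exact this.symm

theorem deg_Us0 {n : ℕ} (g : MP (n + 1)) : degreeOf 0 (Us (n + 1) g) = 2 * degreeOf 0 g := by
  rw [← natDegree_finSuccEquiv, ← natDegree_finSuccEquiv]
  have e : finSuccEquiv ℚ n (Us (n + 1) g) =
      (Polynomial.map (Us n : MP n →+* MP n) (finSuccEquiv ℚ n g)).comp
        (Polynomial.X * (1 - Polynomial.X)) := by
    induction g using MvPolynomial.induction_on with
    | C c =>
      have h1 : Us (n + 1) (C c) = C c := by unfold Us; rw [aeval_C]; rfl
      have h2 : Us n (C c) = C c := by unfold Us; rw [aeval_C]; rfl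
      have h3 : finSuccEquiv ℚ n (C c) = Polynomial.C (C c) := by
        rw [finSuccEquiv_apply, eval₂Hom_C]; rfl
      rw [h1, h3, Polynomial.map_C, Polynomial.C_comp]
      change _ = Polynomial.C (Us n (C c))
      rw [h2]
    | add a b ha hb =>
      rw [map_add, map_add, ha, hb, map_add, Polynomial.map_add, Polynomial.add_comp]
    | mul_X a i ha =>
      rw [map_mul, map_mul, ha, map_mul, Polynomial.map_mul, Polynomial.mul_comp]
      congr 1
      rw [Us_X]
      refine Fin.cases ?_ (fun j => ?_) i
      · unfold uu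
        rw [map_mul, map_sub, map_one, finSuccEquiv_X_zero, Polynomial.map_X, Polynomial.X_comp]
      · unfold uu
        rw [map_mul, map_sub, map_one, finSuccEquiv_X_succ, Polynomial.map_C, Polynomial.C_comp]
        change _ = Polynomial.C (Us n (X j))
        rw [Us_X]
        unfold uu
        rw [Polynomial.C_mul, Polynomial.C_sub, Polynomial.C_1]
  rw [e, Polynomial.natDegree_comp, Polynomial.natDegree_map_eq_of_injective]
  · have h1 : (Polynomial.X * (1 - Polynomial.X) : Polynomial (MP n)).natDegree = 2 := by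
      have h2 : (Polynomial.X * (1 - Polynomial.X) : Polynomial (MP n)) =
          Polynomial.C (-1) * Polynomial.X ^ 2 + Polynomial.C 1 * Polynomial.X + Polynomial.C 0 := by
        simp only [Polynomial.C_neg, Polynomial.C_1, Polynomial.C_0]
        ring
      rw [h2]
      exact Polynomial.natDegree_quadratic (by norm_num)
    rw [h1, mul_comm]
  · exact Us_inj

theorem deg_Us (i : Fin k) (g : MP k) : degreeOf i (Us k g) = 2 * degreeOf i g := by
  cases k with
  | zero => exact i.elim0
  | succ n => rw [degreeOf_swap i 0, rename_Us, deg_Us0, ← degreeOf_swap i 0]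

theorem deg_lin0 {n : ℕ} (j : Fin (n + 1)) : degreeOf 0 (1 - 2 * X j : MP (n + 1)) = if j = 0 then 1 else 0 := by
  have h2 : finSuccEquiv ℚ n (2 : MP (n + 1)) = Polynomial.C 2 := by
    rw [map_ofNat, map_ofNat]
  rw [← natDegree_finSuccEquiv]
  refine Fin.cases ?_ (fun j => ?_) j
  · rw [if_pos rfl, map_sub, map_one, map_mul, h2, finSuccEquiv_X_zero]
    have e : (1 - Polynomial.C 2 * Polynomial.X : Polynomial (MP n)) =
        Polynomial.C (-2) * Polynomial.X + Polynomial.C 1 := by
      rw [Polynomial.C_neg, Polynomial.C_1]; ring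
    rw [e]
    exact Polynomial.natDegree_linear (by norm_num)
  · rw [if_neg (Fin.succ_ne_zero j), map_sub, map_one, map_mul, h2, finSuccEquiv_X_succ,
      ← Polynomial.C_mul, ← Polynomial.C_1, ← Polynomial.C_sub, Polynomial.natDegree_C]

theorem deg_lin (i j : Fin k) : degreeOf i (1 - 2 * X j : MP k) = if j = i then 1 else 0 := by
  cases k with
  | zero => exact i.elim0
  | succ n =>
    have h2 : rename (Equiv.swap i 0) (2 : MP (n + 1)) = 2 := map_ofNat _ 2
    rw [degreeOf_swap i 0, map_sub, map_one, map_mul, h2, rename_X, deg_lin0]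
    have : Equiv.swap i 0 j = 0 ↔ j = i := by
      rw [Equiv.swap_apply_eq_iff, Equiv.swap_apply_right]
    simp only [this]

theorem deg_sub0 {n : ℕ} (p q : Fin (n + 1)) (hpq : p ≠ q) :
    degreeOf 0 (X p - X q : MP (n + 1)) = if p = 0 ∨ q = 0 then 1 else 0 := by
  rw [← natDegree_finSuccEquiv]
  revert hpq
  refine Fin.cases ?_ (fun p => ?_) p
  · refine Fin.cases ?_ (fun q => ?_) q
    · intro h; exact absurd rfl h
    · intro _
      rw [if_pos (Or.inl rfl), map_sub, finSuccEquiv_X_zero, finSuccEquiv_X_succ]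
      exact Polynomial.natDegree_X_sub_C _
  · refine Fin.cases ?_ (fun q => ?_) q
    · intro _
      rw [if_pos (Or.inr rfl), map_sub, finSuccEquiv_X_zero, finSuccEquiv_X_succ,
        ← neg_sub, Polynomial.natDegree_neg]
      exact Polynomial.natDegree_X_sub_C _
    · intro _
      rw [if_neg (by simp), map_sub, finSuccEquiv_X_succ, finSuccEquiv_X_succ, ← Polynomial.C_sub,
        Polynomial.natDegree_C]

theorem deg_sub (i p q : Fin k) (hpq : p ≠ q) :
    degreeOf i (X p - X q : MP k) = if p = i ∨ q = i then 1 else 0 := by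
  cases k with
  | zero => exact i.elim0
  | succ n =>
    rw [degreeOf_swap i 0, map_sub, rename_X, rename_X,
      deg_sub0 _ _ (fun h => hpq ((Equiv.injective _) h))]
    have : ∀ j, Equiv.swap i 0 j = 0 ↔ j = i := by
      intro j
      rw [Equiv.swap_apply_eq_iff, Equiv.swap_apply_right]
    simp only [this]

theorem bas_ne (T : Finset (Fin k)) : bas T ≠ 0 := by
  unfold bas
  rw [prod_ne_zero_iff]
  intro i _ h
  have := congrArg (MvPolynomial.eval (fun _ => (0 : ℚ))) h
  simp at this

theorem deg_bas (i : Fin k) : degreeOf i (bas (univ : Finset (Fin k))) = 1 := by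
  unfold bas
  rw [degreeOf_prod_eq]
  · simp only [deg_lin]
    rw [Finset.sum_ite_eq' univ i (fun _ => 1), if_pos (mem_univ _)]
  · intro j _ h
    have := congrArg (MvPolynomial.eval (fun _ => (0 : ℚ))) h
    simp at this

theorem card_pairs (i : Fin k) : ((pairs k).filter (fun p => p.1 = i ∨ p.2 = i)).card + 1 = k := by
  have h : ((pairs k).filter (fun p => p.1 = i ∨ p.2 = i)).card = (univ.erase i).card := by
    refine card_bij' (fun p _ => if p.1 = i then p.2 else p.1)
      (fun j _ => if i < j then (i, j) else (j, i)) ?_ ?_ ?_ ?_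
    · intro p hp
      rw [mem_filter] at hp
      unfold pairs at hp
      obtain ⟨h1, h2⟩ := hp
      have h3 := (mem_filter.1 h1).2
      rw [mem_erase]
      refine ⟨?_, mem_univ _⟩
      split_ifs with h4
      · rw [← h4]; exact h3.ne'
      · exact h4
    · intro j hj
      rw [mem_erase] at hj
      rw [mem_filter]
      unfold pairs
      rw [mem_filter]
      split_ifs with h4
      · exact ⟨⟨mem_univ _, h4⟩, Or.inl rfl⟩
      · exact ⟨⟨mem_univ _, lt_of_le_of_ne (not_lt.1 h4) hj.1⟩, Or.inr rfl⟩
    · intro p hp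
      rw [mem_filter] at hp
      unfold pairs at hp
      obtain ⟨h1, h2⟩ := hp
      have h3 := (mem_filter.1 h1).2
      by_cases h4 : p.1 = i
      · simp only [h4, if_true]
        rw [h4] at h3
        rw [if_pos h3, ← h4]
      · have h5 := h2.resolve_left h4
        simp only [h4, if_false]
        rw [h5] at h3
        rw [if_neg (not_lt.2 h3.le), ← h5]
    · intro j hj
      rw [mem_erase] at hj
      by_cases h4 : i < j
      · simp only [h4, if_true]
      · simp only [h4, if_false, if_neg hj.1]
  rw [h, card_erase_of_mem (mem_univ _), card_univ, Fintype.card_fin]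
  have := i.2
  omega

theorem deg_Vd (i : Fin k) : degreeOf i (Vd (pairs k)) + 1 = k := by
  unfold Vd
  rw [degreeOf_prod_eq]
  · have e : ∀ p ∈ pairs k, degreeOf i (X p.1 - X p.2 : MP k) = if p.1 = i ∨ p.2 = i then 1 else 0 := by
      intro p hp
      unfold pairs at hp
      exact deg_sub i _ _ (mem_filter.1 hp).2.ne
    rw [sum_congr rfl e, ← card_filter]
    exact card_pairs i
  · intro p hp
    unfold pairs at hp
    exact X_sub_ne (mem_filter.1 hp).2.ne

/-- odd antisymmetric polynomials are divisible by the type B Vandermonde -/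
theorem divis : Pool.Agent.H174.GM.S_DIV := by
  intro k f hanti hodd
  obtain ⟨g, hg⟩ := odd_eq (f := f) (fun j => hodd j)
  have hb := bas_ne (univ : Finset (Fin k))
  have hbs : ∀ σ : Equiv.Perm (Fin k), rename σ (bas (univ : Finset (Fin k))) = bas univ := by
    intro σ
    have h2 : rename σ (2 : MP k) = 2 := map_ofNat _ 2
    unfold bas
    rw [map_prod]
    have e : ∀ i, rename σ (1 - 2 * X i : MP k) = (fun i => (1 - 2 * X i : MP k)) (σ i) := by
      intro i
      rw [map_sub, map_one, map_mul, h2, rename_X]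
    rw [prod_congr rfl fun i _ => e i]
    exact Equiv.prod_comp σ (fun i => (1 - 2 * X i : MP k))
  have hganti : ∀ σ : Equiv.Perm (Fin k), rename σ g = (Equiv.Perm.sign σ : ℤ) • g := by
    intro σ
    have e1 := hanti σ
    rw [hg, map_mul, hbs, rename_Us] at e1
    have e2 : bas (univ : Finset (Fin k)) * Us k (rename σ g) =
        bas (univ : Finset (Fin k)) * Us k ((Equiv.Perm.sign σ : ℤ) • g) := by
      rw [e1, map_zsmul, mul_smul_comm]
    exact Us_inj (mul_left_cancel₀ hb e2)
  obtain ⟨β, hβs, hβ⟩ := antisymm hganti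
  have hdb : db (fun i => (X i : MP k)) = bas univ * Us k (Vd (pairs k)) := by
    unfold db bas Vd
    rw [map_prod]
    congr 1
    refine prod_congr rfl fun p _ => ?_
    rw [map_sub, Us_X, Us_X]
    unfold uu
    ring
  refine ⟨β, hβs, ?_, ?_⟩
  · rw [hdb]
    rw [hβ, map_mul, ← mul_assoc] at hg
    exact hg
  · intro hf i
    have hg0 : g ≠ 0 := by
      rintro rfl
      apply hf
      rw [hg, map_zero, mul_zero]
    have hβ0 : β ≠ 0 := by
      rintro rfl
      apply hg0
      rw [hβ, mul_zero]
    have e : degreeOf i f = 1 + 2 * (degreeOf i (Vd (pairs k)) + degreeOf i β) := by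
      rw [hg, degreeOf_mul_eq hb (Us_ne hg0), deg_bas, deg_Us, hβ,
        degreeOf_mul_eq (Vd_ne _ (subset_refl _)) hβ0]
    have h3 := deg_Vd i
    rw [e]
    omega

end Pool.Agent.H390.GM174
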