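import Pool.Agent.H174.GM.Stmts2
import Pool.Agent.H326.GM174.BAR1

/-!
# GM EP: the quotient by `db` is a polynomial in `uu T` (subtask of project GM of helper174)
-/

set_option autoImplicit false

open Finset

namespace Pool.Agent.H390.GM174.EP

open Pool.Agent.H174.GM

/-! ### products over pairs -/

/-- splitting the pairs -/
theorem prod_pairs_succ {M : Type*} [CommMonoid M] (n : ℕ) (g : Fin (n + 1) → Fin (n + 1) → M) :
    ∏ p ∈ pairs (n + 1), g p.1 p.2 =
      (∏ j : Fin n, g 0 j.succ) * ∏ p ∈ pairs n, g p.1.succ p.2.succ := by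
  unfold pairs
  rw [prod_filter, prod_filter, Fintype.prod_prod_type, Fintype.prod_prod_type, Fin.prod_univ_succ]
  congr 1
  · rw [Fin.prod_univ_succ]
    simp
  · refine prod_congr rfl fun a _ => ?_
    rw [Fin.prod_univ_succ]
    simp

section ring
variable {R : Type*} [CommRing R] {n : ℕ}

theorem dd_cons (T : R) (X : Fin n → R) :
    dd (Fin.cons (α := fun _ => R) T X) = (∏ i, d2 (uu T) (uu (X i))) * dd X := by
  unfold dd
  rw [prod_pairs_succ n (fun a b => d2 (uu (Fin.cons (α := fun _ => R) T X a))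
    (uu (Fin.cons (α := fun _ => R) T X b)))]
  simp only [Fin.cons_zero, Fin.cons_succ]

theorem db_cons (T : R) (X : Fin n → R) :
    db (Fin.cons (α := fun _ => R) T X) = (1 - 2 * T) * (∏ i, (uu T - uu (X i))) * db X := by
  unfold db
  rw [Fin.prod_univ_succ, prod_pairs_succ n (fun a b =>
    (Fin.cons (α := fun _ => R) T X a - Fin.cons (α := fun _ => R) T X b) *
      (1 - Fin.cons (α := fun _ => R) T X a - Fin.cons (α := fun _ => R) T X b))]
  simp only [Fin.cons_zero, Fin.cons_succ]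
  have e : ∀ i, (T - X i) * (1 - T - X i) = uu T - uu (X i) := by
    intro i; unfold uu; ring
  simp only [e]
  ring

theorem uu_flip (T : R) : uu (1 - T) = uu T := by unfold uu; ring

/-- the sign change of one variable -/
def one (q : Fin n) : Fin n → Bool := fun i => decide (i = q)

theorem sg_one (q : Fin n) : sg (one q) = -1 := by
  unfold sg one
  rw [prod_eq_single q]
  · simp
  · intro b _ hb; simp [hb]
  · intro h; exact absurd (mem_univ _) h

theorem flp_one_cons (T : R) (X : Fin n → R) (q : Fin n) :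
    flp (one q.succ) (Fin.cons (α := fun _ => R) T X) =
      Fin.cons (α := fun _ => R) T (flp (one q) X) := by
  funext i
  refine Fin.cases ?_ (fun j => ?_) i
  · unfold flp one
    simp [Fin.succ_ne_zero, Ne.symm (Fin.succ_ne_zero q)]
  · unfold flp one
    simp

theorem flp_zero_cons (T : R) (X : Fin n → R) :
    flp (one 0) (Fin.cons (α := fun _ => R) T X) = Fin.cons (α := fun _ => R) (1 - T) X := by
  funext i
  refine Fin.cases ?_ (fun j => ?_) i
  · unfold flp one
    simp
  · unfold flp one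
    simp [Fin.succ_ne_zero]

theorem uu_flp (ε : Fin n → Bool) (X : Fin n → R) (i : Fin n) : uu (flp ε X i) = uu (X i) := by
  unfold flp
  split_ifs
  · exact uu_flip _
  · rfl

/-- moving one variable to the front -/
theorem front (X : Fin (n + 1) → R) (q : Fin (n + 1)) :
    X = (Fin.cons (α := fun _ => R) (X q) (X ∘ q.succAbove)) ∘ q.cycleRange := by
  have h1 := Fin.cons_comp_cycleRange (X q) (X ∘ q.succAbove) q
  rw [h1]
  exact (Fin.insertNth_self_removeNth q X).symm

end ring

/-! ### algebraic independence -/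

section alg
variable {K : Type} [Field K] [Algebra ℚ K] {n : ℕ} {X : Fin n → K}

theorem alg_ne (hX : AlgebraicIndependent ℚ X) (p : MvPolynomial (Fin n) ℚ) (e : Fin n → ℚ)
    (h : MvPolynomial.eval e p ≠ 0) : MvPolynomial.aeval X p ≠ 0 := by
  intro h0
  have : p = 0 := hX.eq_zero_of_aeval_eq_zero p h0
  rw [this] at h
  simp at h

theorem f1 (hX : AlgebraicIndependent ℚ X) (i : Fin n) : X i ≠ 0 := by
  have := alg_ne hX (MvPolynomial.X i) (fun _ => 1) (by simp)
  simpa using this

theorem f2 (hX : AlgebraicIndependent ℚ X) (i : Fin n) : X i ≠ 1 := by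
  have := alg_ne hX (MvPolynomial.X i - 1) (fun _ => 0) (by simp)
  intro h
  apply this
  simp [h]

theorem f3 (hX : AlgebraicIndependent ℚ X) (i : Fin n) : 1 - 2 * X i ≠ 0 := by
  have := alg_ne hX (1 - MvPolynomial.C 2 * MvPolynomial.X i) (fun _ => 0) (by simp)
  intro h
  apply this
  simp only [map_sub, map_one, map_mul, MvPolynomial.aeval_X, MvPolynomial.aeval_C, map_ofNat]
  exact h

theorem f4 (hX : AlgebraicIndependent ℚ X) {i j : Fin n} (hij : i ≠ j) :
    uu (X i) - uu (X j) ≠ 0 := by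
  have := alg_ne hX (MvPolynomial.X i * (1 - MvPolynomial.X i) -
    MvPolynomial.X j * (1 - MvPolynomial.X j)) (fun l => if l = i then 2 else 0)
    (by simp [Ne.symm hij]; norm_num)
  intro h
  apply this
  simp only [map_sub, map_one, map_mul, MvPolynomial.aeval_X]
  exact h

theorem f5 (hX : AlgebraicIndependent ℚ X) (i j : Fin n) :
    d2 (uu (X i)) (uu (X j)) ≠ 0 := by
  have := alg_ne hX (MvPolynomial.X i * (1 - MvPolynomial.X i) +
    MvPolynomial.X j * (1 - MvPolynomial.X j) -
    MvPolynomial.C 3 * (MvPolynomial.X i * (1 - MvPolynomial.X i)) *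
      (MvPolynomial.X j * (1 - MvPolynomial.X j)) +
    (MvPolynomial.X i * (1 - MvPolynomial.X i)) ^ 2 *
      (MvPolynomial.X j * (1 - MvPolynomial.X j)) ^ 2) (fun l => 3)
    (by simp; norm_num)
  intro h
  apply this
  simp only [map_add, map_pow, map_sub, map_one, map_mul, MvPolynomial.aeval_X,
    MvPolynomial.aeval_C, map_ofNat]
  exact h

theorem f6 (hX : AlgebraicIndependent ℚ X) (i : Fin n) : 2 - X i ≠ 0 := by
  have := alg_ne hX (MvPolynomial.C 2 - MvPolynomial.X i) (fun _ => 0) (by simp)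
  intro h
  apply this
  simp only [map_sub, MvPolynomial.aeval_X, MvPolynomial.aeval_C, map_ofNat]
  exact h

theorem f7 (hX : AlgebraicIndependent ℚ X) (i : Fin n) : 1 + X i ≠ 0 := by
  have := alg_ne hX (1 + MvPolynomial.X i) (fun _ => 0) (by simp)
  intro h
  apply this
  simp only [map_add, map_one, MvPolynomial.aeval_X]
  exact h

theorem f8 (hX : AlgebraicIndependent ℚ X) (i : Fin n) : 1 - X i + X i ^ 2 ≠ 0 := by
  have := alg_ne hX (1 - MvPolynomial.X i + MvPolynomial.X i ^ 2) (fun _ => 0) (by simp)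
  intro h
  apply this
  simp only [map_add, map_sub, map_pow, map_one, MvPolynomial.aeval_X]
  exact h

theorem f9 (hX : AlgebraicIndependent ℚ X) (i j : Fin n) : uu (X i)⁻¹ - uu (X j) ≠ 0 := by
  have := alg_ne hX (1 - MvPolynomial.X i + MvPolynomial.X i ^ 2 *
    (MvPolynomial.X j * (1 - MvPolynomial.X j))) (fun _ => 0) (by simp)
  intro h
  apply this
  simp only [map_add, map_sub, map_pow, map_one, map_mul, MvPolynomial.aeval_X]
  have h1 := f1 hX i
  have e : 1 - X i + X i ^ 2 * (X j * (1 - X j)) = -(X i ^ 2 * (uu (X i)⁻¹ - uu (X j))) := by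
    unfold uu
    field_simp
    ring
  rw [e, h, mul_zero, neg_zero]

theorem db_ne (hX : AlgebraicIndependent ℚ X) : db X ≠ 0 := by
  unfold db
  refine mul_ne_zero (prod_ne_zero_iff.2 fun i _ => f3 hX i) (prod_ne_zero_iff.2 fun p hp => ?_)
  unfold pairs at hp
  have h := f4 hX (mem_filter.1 hp).2.ne
  have e : (X p.1 - X p.2) * (1 - X p.1 - X p.2) = uu (X p.1) - uu (X p.2) := by
    unfold uu; ring
  rw [e]
  exact h

theorem indep_flp (hX : AlgebraicIndependent ℚ X) (q : Fin n) :
    AlgebraicIndependent ℚ (flp (one q) X) := by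
  set φ : MvPolynomial (Fin n) ℚ →ₐ[ℚ] MvPolynomial (Fin n) ℚ :=
    MvPolynomial.aeval (fun i => if i = q then 1 - MvPolynomial.X i else MvPolynomial.X i) with hφ
  have h1 : φ.comp φ = AlgHom.id ℚ _ := by
    apply MvPolynomial.algHom_ext
    intro i
    rw [AlgHom.comp_apply, hφ, MvPolynomial.aeval_X]
    by_cases hi : i = q
    · simp [hi]
    · simp [hi]
  have hinj : Function.Injective φ := by
    intro a b hab
    have := congrArg φ hab
    rw [← AlgHom.comp_apply, ← AlgHom.comp_apply, h1] at this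
    exact this
  have h2 : MvPolynomial.aeval (flp (one q) X) = (MvPolynomial.aeval X).comp φ := by
    apply MvPolynomial.algHom_ext
    intro i
    rw [AlgHom.comp_apply, hφ, MvPolynomial.aeval_X, MvPolynomial.aeval_X]
    unfold flp one
    by_cases hi : i = q
    · simp [hi]
    · simp [hi]
  unfold AlgebraicIndependent
  rw [h2]
  have hX0 : Function.Injective
      (MvPolynomial.aeval X : MvPolynomial (Fin n) ℚ →ₐ[ℚ] K) := hX
  intro a b hab
  rw [AlgHom.comp_apply, AlgHom.comp_apply] at hab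
  exact hinj (hX0 hab)

end alg

/-! ### polynomials in `T` -/

section pol
variable {K : Type} [Field K] [Algebra ℚ K] {k : ℕ} {X : Fin (k + 1) → K}

theorem poly_eq (hX : AlgebraicIndependent ℚ X) (P Q : Polynomial K)
    (h : ∀ T : K, T ≠ 0 → T ≠ 1 → (∀ i, d2 (uu T) (uu (X i)) ≠ 0) → P.eval T = Q.eval T) :
    P = Q := by
  haveI : CharZero K := algebraRat.charZero K
  set G : Polynomial K := Polynomial.X * (1 - Polynomial.X) *
    ∏ i, (Polynomial.X * (1 - Polynomial.X) + Polynomial.C (uu (X i)) -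
      3 * (Polynomial.X * (1 - Polynomial.X)) * Polynomial.C (uu (X i)) +
      (Polynomial.X * (1 - Polynomial.X)) ^ 2 * Polynomial.C (uu (X i)) ^ 2) with hG
  have hGe : ∀ T, G.eval T = uu T * ∏ i, d2 (uu T) (uu (X i)) := by
    intro T
    rw [hG]
    simp only [Polynomial.eval_mul, Polynomial.eval_X, Polynomial.eval_sub, Polynomial.eval_one,
      Polynomial.eval_prod, Polynomial.eval_add, Polynomial.eval_C, Polynomial.eval_pow,
      Polynomial.eval_ofNat]
    rfl
  have hG0 : G ≠ 0 := by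
    intro h0
    have h1 := hGe (X 0)
    rw [h0, Polynomial.eval_zero] at h1
    have h2 : uu (X 0) ≠ 0 := by
      unfold uu
      exact mul_ne_zero (f1 hX 0) (sub_ne_zero.2 (Ne.symm (f2 hX 0)))
    exact mul_ne_zero h2 (prod_ne_zero_iff.2 fun i _ => f5 hX 0 i) h1.symm
  have h1 : (P - Q) * G = 0 := by
    apply Polynomial.funext
    intro T
    rw [Polynomial.eval_mul, Polynomial.eval_zero]
    by_cases hT : G.eval T = 0
    · rw [hT, mul_zero]
    · rw [hGe] at hT
      have hT1 : uu T ≠ 0 := left_ne_zero_of_mul hT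
      have hT2 := prod_ne_zero_iff.1 (right_ne_zero_of_mul hT)
      unfold uu at hT1
      rw [Polynomial.eval_sub, h T (left_ne_zero_of_mul hT1)
        (fun h => right_ne_zero_of_mul hT1 (by rw [h, sub_self])) (fun i => hT2 i (mem_univ _)),
        sub_self, zero_mul]
  rcases mul_eq_zero.1 h1 with h2 | h2
  · exact sub_eq_zero.1 h2
  · exact absurd h2 hG0

/-- the second part for `y = X q` -/
theorem partB (h1 : S_EPM) (h4 : S_PERM) (hX : AlgebraicIndependent ℚ X) (S : Polynomial K)
    (hA : ∀ T : K, T ≠ 0 → T ≠ 1 → (∀ i, d2 (uu T) (uu (X i)) ≠ 0) →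
      uu T * dd (Fin.cons (α := fun _ => K) T X) * ee (Fin.cons (α := fun _ => K) T X)
        = db (Fin.cons (α := fun _ => K) T X) * S.eval (uu T)) (q : Fin (k + 1)) :
    S.eval (uu (X q)⁻¹) * db (X ∘ q.succAbove) * uu (X q) =
      (∏ r, (1 - uu (X q)⁻¹ * uu (X q) * uu (X (q.succAbove r))) ^ 2) * dd (X ∘ q.succAbove) *
        ee (X ∘ q.succAbove) := by
  obtain ⟨M, -, hM1, hM2⟩ := h1 k K X hX
  have key : Polynomial.C (dd X) * M = Polynomial.C (db X) * (1 - 2 * Polynomial.X) *
      (∏ i, (Polynomial.X * (1 - Polynomial.X) - Polynomial.C (uu (X i)))) *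
      S.comp (Polynomial.X * (1 - Polynomial.X)) := by
    apply poly_eq hX
    intro T hT0 hT1 hT2
    have h5 := hA T hT0 hT1 hT2
    rw [dd_cons, db_cons] at h5
    simp only [Polynomial.eval_mul, Polynomial.eval_C, Polynomial.eval_sub, Polynomial.eval_one,
      Polynomial.eval_X, Polynomial.eval_ofNat, Polynomial.eval_prod, Polynomial.eval_comp]
    rw [hM1 T hT0 hT1 hT2]
    change dd X * (uu T * (∏ i, d2 (uu T) (uu (X i))) * ee (Fin.cons (α := fun _ => K) T X)) =
      db X * (1 - 2 * T) * (∏ i, (uu T - uu (X i))) * S.eval (uu T)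
    linear_combination h5
  have key2 := congrArg (Polynomial.eval (X q)⁻¹) key
  simp only [Polynomial.eval_mul, Polynomial.eval_C, Polynomial.eval_sub, Polynomial.eval_one,
      Polynomial.eval_X, Polynomial.eval_ofNat, Polynomial.eval_prod, Polynomial.eval_comp] at key2
  rw [hM2 q] at key2
  have hP := h4 K (k + 1) (Fin.cons (α := fun _ => K) (X q) (X ∘ q.succAbove)) q.cycleRange
  rw [← front X q] at hP
  obtain ⟨-, -, hdd, hdb⟩ := hP
  rw [Fin.sign_cycleRange, db_cons] at hdb
  rw [dd_cons] at hdd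
  have hy := f1 hX q
  have hy1 : 1 - X q ≠ 0 := sub_ne_zero.2 (Ne.symm (f2 hX q))
  have hy2 := f3 hX q
  have hy6 := f6 hX q
  have hy7 := f7 hX q
  have hy8 := f8 hX q
  have key3 : dd X * ((-1) ^ q.1 * (-((2 - X q) * (2 * X q - 1) * (1 - X q + X q ^ 2) * (1 + X q) *
        ((X q)⁻¹) ^ 4)) * (∏ r, d2 (uu (X q)⁻¹) (uu (X (q.succAbove r)))) *
        ee (X ∘ q.succAbove)) = db X * (1 - 2 * (X q)⁻¹) *
      (∏ i, (uu (X q)⁻¹ - uu (X i))) * S.eval (uu (X q)⁻¹) := key2
  rw [Fin.prod_univ_succAbove (fun i => uu (X q)⁻¹ - uu (X i)) q] at key3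
  have hsg : (((-1 : ℤˣ) ^ (q : ℕ) : ℤˣ) : ℤ) = (-1) ^ q.1 := by push_cast; rfl
  rw [hsg, zsmul_eq_mul] at hdb
  push_cast at hdb
  have E5 : (∏ r, d2 (uu (X q)) (uu (X (q.succAbove r)))) *
      (∏ r, d2 (uu (X q)⁻¹) (uu (X (q.succAbove r)))) =
      (∏ r, (uu (X q) - uu (X (q.succAbove r)))) * (∏ r, (uu (X q)⁻¹ - uu (X (q.succAbove r)))) *
      ∏ r, (1 - uu (X q)⁻¹ * uu (X q) * uu (X (q.succAbove r))) ^ 2 := by
    rw [← prod_mul_distrib, ← prod_mul_distrib, ← prod_mul_distrib]
    refine prod_congr rfl fun r _ => ?_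
    unfold d2
    generalize uu (X (q.succAbove r)) = s
    unfold uu
    field_simp
    ring
  have E6 : -((2 - X q) * (2 * X q - 1) * (1 - X q + X q ^ 2) * (1 + X q) * ((X q)⁻¹) ^ 4) *
      uu (X q) = (1 - 2 * X q) * (1 - 2 * (X q)⁻¹) * (uu (X q)⁻¹ - uu (X q)) := by
    unfold uu
    field_simp
    ring
  have hc : -((2 - X q) * (2 * X q - 1) * (1 - X q + X q ^ 2) * (1 + X q) * ((X q)⁻¹) ^ 4) ≠ 0 := by
    rw [neg_ne_zero]
    have : 2 * X q - 1 ≠ 0 := by
      intro h; apply hy2; linear_combination -h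
    exact mul_ne_zero (mul_ne_zero (mul_ne_zero (mul_ne_zero hy6 this) hy8) hy7)
      (pow_ne_zero _ (inv_ne_zero hy))
  have hPv : (∏ r, (uu (X q) - uu (X (q.succAbove r)))) ≠ 0 :=
    prod_ne_zero_iff.2 fun r _ => f4 hX (Ne.symm (Fin.succAbove_ne q r))
  have hPw : (∏ r, (uu (X q)⁻¹ - uu (X (q.succAbove r)))) ≠ 0 :=
    prod_ne_zero_iff.2 fun r _ => f9 hX _ _
  have hs : ((-1 : K) ^ q.1) ≠ 0 := pow_ne_zero _ (neg_ne_zero.2 one_ne_zero)
  rw [hdd, hdb] at key3
  simp only [Function.comp_apply] at key3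
  generalize -((2 - X q) * (2 * X q - 1) * (1 - X q + X q ^ 2) * (1 + X q) * ((X q)⁻¹) ^ 4) = c
    at key3 E6 hc
  generalize (∏ r, d2 (uu (X q)) (uu (X (q.succAbove r)))) = Pd at key3 E5
  generalize (∏ r, d2 (uu (X q)⁻¹) (uu (X (q.succAbove r)))) = Pu at key3 E5
  generalize (∏ r, (uu (X q) - uu (X (q.succAbove r)))) = Pv at key3 E5 hPv
  generalize (∏ r, (uu (X q)⁻¹ - uu (X (q.succAbove r)))) = Pw at key3 E5 hPw
  generalize (∏ r, (1 - uu (X q)⁻¹ * uu (X q) * uu (X (q.succAbove r))) ^ 2) = Pq at key3 E5 ⊢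
  generalize ((-1 : K) ^ q.1) = sgn at key3 hs
  generalize dd (X ∘ q.succAbove) = dr at key3 ⊢
  generalize db (X ∘ q.succAbove) = dbr at key3 ⊢
  generalize ee (X ∘ q.succAbove) = er at key3 ⊢
  generalize S.eval (uu (X q)⁻¹) = Sv at key3 ⊢
  apply mul_left_cancel₀ (mul_ne_zero (mul_ne_zero (mul_ne_zero hs hc) hPv) hPw)
  linear_combination (-1) * key3 + (sgn * c * dr * er) * E5 + (sgn * Pv * Pw * dbr * Sv) * E6

end pol

/-- **EP** -/
theorem ep (h1 : S_EPM) (h2 : S_EALT) (h3 : S_FLIP) (h4 : S_PERM) : Pool.Agent.H174.GM.S_EP := by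
  intro k K _ _ X hX
  haveI : CharZero K := algebraRat.charZero K
  obtain ⟨M, hMd, hM1, hM2⟩ := h1 k K X hX
  -- `M` is odd
  have hodd : M.comp (1 - Polynomial.X) = -M := by
    apply poly_eq hX
    intro T hT0 hT1 hT2
    rw [Polynomial.eval_comp, Polynomial.eval_neg, Polynomial.eval_sub, Polynomial.eval_one,
      Polynomial.eval_X, hM1 T hT0 hT1 hT2, hM1 (1 - T) (sub_ne_zero.2 (Ne.symm hT1))
      (fun h => hT0 (by linear_combination -h)) (fun i => by rw [uu_flip]; exact hT2 i), uu_flip,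
      ← flp_zero_cons, (h2 K (k + 1 + 1) _).2, sg_one]
    simp
  have hroot : ∀ r, M.eval (X r) = 0 := by
    intro r
    rw [hM1 (X r) (f1 hX r) (f2 hX r) (fun i => f5 hX r i)]
    have h5 := (h2 K (k + 1 + 1) (Fin.cons (α := fun _ => K) (X r) X)).1 (Equiv.swap 0 r.succ)
    have h6 : (Fin.cons (α := fun _ => K) (X r) X : Fin (k + 1 + 1) → K) ∘ (Equiv.swap 0 r.succ) =
        Fin.cons (α := fun _ => K) (X r) X := by
      funext i
      rw [Function.comp_apply]
      by_cases hi : i = 0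
      · rw [hi, Equiv.swap_apply_left, Fin.cons_succ, Fin.cons_zero]
      · by_cases hi' : i = r.succ
        · rw [hi', Equiv.swap_apply_right, Fin.cons_succ, Fin.cons_zero]
        · rw [Equiv.swap_apply_of_ne_of_ne hi hi']
    rw [h6, Equiv.Perm.sign_swap (Ne.symm (Fin.succ_ne_zero r))] at h5
    simp only [Units.val_neg, Units.val_one, neg_smul, one_smul] at h5
    have h7 : (2 : K) * ee (Fin.cons (α := fun _ => K) (X r) X) = 0 := by linear_combination h5
    rw [(mul_eq_zero.1 h7).resolve_left two_ne_zero, mul_zero]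
  obtain ⟨B, hB, hBd⟩ : ∃ B : Polynomial K,
      M = (1 - 2 * Polynomial.X) * B.comp (Polynomial.X * (1 - Polynomial.X)) ∧
      B.natDegree ≤ 2 * k + 2 := by
    by_cases hM0 : M = 0
    · exact ⟨0, by rw [hM0]; simp, by simp⟩
    · obtain ⟨B, hB, hd⟩ := Pool.Agent.H326.GM174.BAR1.bar1 K M hodd hM0
      exact ⟨B, hB, by omega⟩
  have hMe : ∀ T, M.eval T = (1 - 2 * T) * B.eval (uu T) := by
    intro T
    rw [hB]
    simp only [Polynomial.eval_mul, Polynomial.eval_sub, Polynomial.eval_one,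
      Polynomial.eval_X, Polynomial.eval_ofNat, Polynomial.eval_comp]
    rfl
  have hBr : ∀ r, B.eval (uu (X r)) = 0 := by
    intro r
    have h5 := hroot r
    rw [hMe] at h5
    exact (mul_eq_zero.1 h5).resolve_left (f3 hX r)
  have hinj : Function.Injective (fun r => uu (X r)) := by
    intro r s hrs
    by_contra hne
    exact f4 hX hne (sub_eq_zero.2 hrs)
  obtain ⟨S', hS'⟩ : (∏ r, (Polynomial.X - Polynomial.C (uu (X r)))) ∣ B := by
    refine Finset.prod_dvd_of_coprime ?_ ?_
    · intro a _ b _ hab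
      exact Polynomial.pairwise_coprime_X_sub_C hinj hab
    · intro r _
      rw [Polynomial.dvd_iff_isRoot]
      exact hBr r
  have hSd : S'.natDegree ≤ k + 1 := by
    by_cases hS0 : S' = 0
    · rw [hS0]; simp
    · have hmon : (∏ r, (Polynomial.X - Polynomial.C (uu (X r)))).Monic :=
        Polynomial.monic_prod_of_monic _ _ fun r _ => Polynomial.monic_X_sub_C _
      have h5 : (∏ r, (Polynomial.X - Polynomial.C (uu (X r)))).natDegree = k + 1 := by
        rw [Polynomial.natDegree_prod_of_monic _ _ fun r _ => Polynomial.monic_X_sub_C _]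
        simp
      have h6 := hBd
      rw [hS', Polynomial.natDegree_mul hmon.ne_zero hS0, h5] at h6
      omega
  have hA : ∀ T : K, T ≠ 0 → T ≠ 1 → (∀ i, d2 (uu T) (uu (X i)) ≠ 0) →
      uu T * dd (Fin.cons (α := fun _ => K) T X) * ee (Fin.cons (α := fun _ => K) T X)
        = db (Fin.cons (α := fun _ => K) T X) *
          (Polynomial.C (dd X / db X) * S').eval (uu T) := by
    intro T hT0 hT1 hT2
    have h5 := hM1 T hT0 hT1 hT2
    rw [hMe, hS', Polynomial.eval_mul, Polynomial.eval_prod] at h5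
    simp only [Polynomial.eval_sub, Polynomial.eval_X, Polynomial.eval_C] at h5
    rw [dd_cons, db_cons, Polynomial.eval_mul, Polynomial.eval_C]
    have hdb := db_ne hX
    have e : (1 - 2 * T) * (∏ i, (uu T - uu (X i))) * db X * (dd X / db X * S'.eval (uu T)) =
        dd X * ((1 - 2 * T) * ((∏ i, (uu T - uu (X i))) * S'.eval (uu T))) := by
      field_simp
    rw [e, h5]
    ring
  refine ⟨Polynomial.C (dd X / db X) * S', ?_, hA, ?_⟩
  · exact le_trans (Polynomial.natDegree_C_mul_le _ _) hSd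
  · intro q y hy
    rcases hy with rfl | rfl
    · exact partB h1 h4 hX _ hA q
    · have hX' := indep_flp hX q
      have h5 := partB h1 h4 hX' (Polynomial.C (dd X / db X) * S') (fun T hT0 hT1 hT2 => by
        have h6 := hA T hT0 hT1 (fun i => by
          have := hT2 i
          rwa [uu_flp] at this)
        rw [← flp_one_cons, (h3 K (k + 1 + 1) _ _).2.1, (h3 K (k + 1 + 1) _ _).2.2,
          (h2 K (k + 1 + 1) _).2, sg_one]
        simp only [neg_smul, one_smul]
        linear_combination -h6) q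
      have e1 : flp (one q) X q = 1 - X q := by simp [flp, one]
      have e2 : (flp (one q) X) ∘ q.succAbove = X ∘ q.succAbove := by
        funext r
        simp [flp, one, Fin.succAbove_ne]
      rw [e1, e2] at h5
      simp only [uu_flp] at h5
      exact h5

end Pool.Agent.H390.GM174.EP
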